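import Pool.Agent.Helper49_SOS.Dense
import Pool.Agent.Helper49_SOS.Chk

/-!
# Comparison of dense polynomials with term lists (helper4, for MP_37fa12_co)

* `eqT p t = true` gives `v3 p a b c = ev t a b c` (`p` dense, `t` a list of terms in the order
  `i, j, k`; zero terms may be left out on both sides): theorem `eqT_v`;
* `eq3 p q = true` gives `v3 p = v3 q` (two dense polynomials, up to zeros at the ends): `eq3_v`;
* `tmD p` are the terms of `p`: `ev_tmD`.
-/

set_option autoImplicit false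

namespace Pool.Agent.SOS.H4

open Pool.Agent.SOS

/-! ### comparison -/

/-- equality of integers -/
def eqI : ℤ → ℤ → Bool
  | Int.ofNat m, Int.ofNat n => Nat.beq m n
  | Int.negSucc m, Int.negSucc n => Nat.beq m n
  | _, _ => false

/-- is it zero -/
def isZ : ℤ → Bool
  | Int.ofNat m => Nat.beq m 0
  | Int.negSucc _ => false

theorem eqI_eq : ∀ {a b : ℤ}, eqI a b = true → a = b
  | Int.ofNat m, Int.ofNat n, h => by
    have : m = n := Nat.eq_of_beq_eq_true h
    rw [this]
  | Int.negSucc m, Int.negSucc n, h => by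
    have : m = n := Nat.eq_of_beq_eq_true h
    rw [this]
  | Int.ofNat _, Int.negSucc _, h => by simp [eqI] at h
  | Int.negSucc _, Int.ofNat _, h => by simp [eqI] at h

theorem isZ_eq : ∀ {a : ℤ}, isZ a = true → a = 0
  | Int.ofNat m, h => by
    have : m = 0 := Nat.eq_of_beq_eq_true h
    rw [this]
    rfl
  | Int.negSucc _, h => by simp [isZ] at h

def z1 : D1 → Bool
  | [] => true
  | a :: p => isZ a && z1 p

def z2 : D2 → Bool
  | [] => true
  | a :: p => z1 a && z2 p

def z3 : D3 → Bool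
  | [] => true
  | a :: p => z2 a && z3 p

theorem z1_v (x : ℝ) : ∀ p : D1, z1 p = true → v1 p x = 0
  | [], _ => rfl
  | a :: p, h => by
    simp only [z1, Bool.and_eq_true] at h
    rw [v1_cons, isZ_eq h.1, z1_v x p h.2]
    simp

theorem z2_v (x y : ℝ) : ∀ p : D2, z2 p = true → v2 p x y = 0
  | [], _ => rfl
  | a :: p, h => by
    simp only [z2, Bool.and_eq_true] at h
    rw [v2_cons, z1_v y a h.1, z2_v x y p h.2]
    simp

theorem z3_v (x y z : ℝ) : ∀ p : D3, z3 p = true → v3 p x y z = 0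
  | [], _ => rfl
  | a :: p, h => by
    simp only [z3, Bool.and_eq_true] at h
    rw [v3_cons, z2_v y z a h.1, z3_v x y z p h.2]
    simp

/-- equality up to zeros at the end -/
def eq1 : D1 → D1 → Bool
  | [], q => z1 q
  | a :: p, [] => isZ a && z1 p
  | a :: p, b :: q => eqI a b && eq1 p q

def eq2 : D2 → D2 → Bool
  | [], q => z2 q
  | a :: p, [] => z1 a && z2 p
  | a :: p, b :: q => eq1 a b && eq2 p q

def eq3 : D3 → D3 → Bool
  | [], q => z3 q
  | a :: p, [] => z2 a && z3 p
  | a :: p, b :: q => eq2 a b && eq3 p q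

theorem eq1_v (x : ℝ) : ∀ p q : D1, eq1 p q = true → v1 p x = v1 q x
  | [], q, h => by rw [z1_v x q h, v1_nil]
  | a :: p, [], h => by rw [z1_v x (a :: p) h, v1_nil]
  | a :: p, b :: q, h => by
    simp only [eq1, Bool.and_eq_true] at h
    rw [v1_cons, v1_cons, eqI_eq h.1, eq1_v x p q h.2]

theorem eq2_v (x y : ℝ) : ∀ p q : D2, eq2 p q = true → v2 p x y = v2 q x y
  | [], q, h => by rw [z2_v x y q h, v2_nil]
  | a :: p, [], h => by rw [z2_v x y (a :: p) h, v2_nil]
  | a :: p, b :: q, h => by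
    simp only [eq2, Bool.and_eq_true] at h
    rw [v2_cons, v2_cons, eq1_v y a b h.1, eq2_v x y p q h.2]

theorem eq3_v (x y z : ℝ) : ∀ p q : D3, eq3 p q = true → v3 p x y z = v3 q x y z
  | [], q, h => by rw [z3_v x y z q h, v3_nil]
  | a :: p, [], h => by rw [z3_v x y z (a :: p) h, v3_nil]
  | a :: p, b :: q, h => by
    simp only [eq3, Bool.and_eq_true] at h
    rw [v3_cons, v3_cons, eq2_v y z a b h.1, eq3_v x y z p q h.2]

/-! ### terms -/

def u1 (i j : ℕ) : ℕ → D1 → List Tm
  | _, [] => []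
  | k, a :: p => (a, i, j, k) :: u1 i j (k + 1) p

def u2 (i : ℕ) : ℕ → D2 → List Tm
  | _, [] => []
  | j, q :: p => u1 i j 0 q ++ u2 i (j + 1) p

def u3 : ℕ → D3 → List Tm
  | _, [] => []
  | i, q :: p => u2 i 0 q ++ u3 (i + 1) p

/-- the terms of a dense polynomial, in the order `i, j, k` -/
def tmD (p : D3) : List Tm := u3 0 p

theorem ev_u1 (a b c : ℝ) (i j : ℕ) : ∀ (p : D1) (k : ℕ),
    ev (u1 i j k p) a b c = a ^ i * (b ^ j * c ^ k) * v1 p c
  | [], k => by simp [u1, ev_nil, v1_nil]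
  | x :: p, k => by
    rw [u1, ev_cons, ev_u1 a b c i j p (k + 1), v1_cons]
    show (x : ℝ) * (a ^ i * (b ^ j * c ^ k)) + _ = _
    rw [pow_succ]
    ring

theorem ev_u2 (a b c : ℝ) (i : ℕ) : ∀ (p : D2) (j : ℕ),
    ev (u2 i j p) a b c = a ^ i * b ^ j * v2 p b c
  | [], j => by simp [u2, ev_nil, v2_nil]
  | x :: p, j => by
    rw [u2, ev_append, ev_u1, ev_u2 a b c i p (j + 1), v2_cons, pow_succ]
    ring

theorem ev_u3 (a b c : ℝ) : ∀ (p : D3) (i : ℕ), ev (u3 i p) a b c = a ^ i * v3 p a b c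
  | [], i => by simp [u3, ev_nil, v3_nil]
  | x :: p, i => by
    rw [u3, ev_append, ev_u2, ev_u3 a b c p (i + 1), v3_cons, pow_succ]
    ring

/-- values of the terms -/
theorem ev_tmD (p : D3) (a b c : ℝ) : ev (tmD p) a b c = v3 p a b c := by
  rw [tmD, ev_u3]
  simp

/-- without the zero terms -/
def nzT : List Tm → List Tm
  | [] => []
  | t :: l => cond (isZ t.1) (nzT l) (t :: nzT l)

theorem ev_nzT (a b c : ℝ) : ∀ l : List Tm, ev (nzT l) a b c = ev l a b c
  | [] => rfl
  | t :: l => by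
    rw [nzT, ev_cons]
    cases h : isZ t.1 with
    | true =>
      rw [isZ_eq h]
      simp [ev_nzT a b c l]
    | false =>
      show ev (t :: nzT l) a b c = _
      rw [ev_cons, ev_nzT a b c l]

/-- equality of term lists -/
def eqL : List Tm → List Tm → Bool
  | [], [] => true
  | s :: l, t :: m => ((eqI s.1 t.1 && Nat.beq s.2.1 t.2.1) &&
      (Nat.beq s.2.2.1 t.2.2.1 && Nat.beq s.2.2.2 t.2.2.2)) && eqL l m
  | _, _ => false

theorem eqL_eq : ∀ {l m : List Tm}, eqL l m = true → l = m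
  | [], [], _ => rfl
  | [], _ :: _, h => by simp [eqL] at h
  | _ :: _, [], h => by simp [eqL] at h
  | s :: l, t :: m, h => by
    simp only [eqL, Bool.and_eq_true] at h
    obtain ⟨⟨⟨h1, h2⟩, h3, h4⟩, h5⟩ := h
    have e1 := eqI_eq h1
    have e2 := Nat.eq_of_beq_eq_true h2
    have e3 := Nat.eq_of_beq_eq_true h3
    have e4 := Nat.eq_of_beq_eq_true h4
    rw [eqL_eq h5]
    congr 1
    exact Prod.ext e1 (Prod.ext e2 (Prod.ext e3 e4))

/-- a dense polynomial against a list of terms -/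
def eqT (p : D3) (t : List Tm) : Bool := eqL (nzT (tmD p)) (nzT t)

theorem eqT_v {p : D3} {t : List Tm} (h : eqT p t = true) (a b c : ℝ) :
    v3 p a b c = ev t a b c := by
  rw [← ev_tmD, ← ev_nzT a b c (tmD p), eqL_eq h, ev_nzT]

end Pool.Agent.SOS.H4
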