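import Pool.Agent.Helper4_SOS.DLS
import Pool.Agent.Helper4_SOS.EqT
import Pool.Agent.Helper29_LPV.LsX
import Pool.Agent.Helper57_SOS.Lin
import Pool.Agent.Helper57_SOS.Blk3

/-!
# The polynomial of the mixed pairs, n = 22 (helper4, MP_37fa12_co)
-/

set_option autoImplicit false

namespace Pool.Agent.SOS.H4

open Pool.Agent.SOS Pool.Agent.SOS.H57

theorem clx : eq3 (shABC 23 5 16 1421 256 H29.lsX) dLS = true := by
  decide +kernel

/-- hypothesis `eLS` of `certw` with `TLS = tm3 dLS` -/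
theorem eLSx (a b c : ℝ) :
    v3 (shABC 23 5 16 1421 256 H29.lsX) a b c = ev (tm3 dLS) a b c := by
  rw [ev_tm3, eq3_v a b c _ _ clx]

end Pool.Agent.SOS.H4
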