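import Pool.Agent.Helper49_SOS.Dense
import Pool.Agent.LPK.Defs

/-!
# The transform `T3` on dense polynomials (helper4, for MP_37fa12_co)

`ofD p` is the list of the terms `(p_ijk, i, j, 2k)` of the dense polynomial `p`, `t3 n p` the dense
polynomial of the transform: `e3 (T3 n (ofD p)) A B H = v3 (t3 n p) A B (H^2)`.  Everything is done with
linear functionals: `s3 L p = ∑ p_ijk L i j k`.
-/

set_option autoImplicit false

namespace Pool.Agent.SOS

open Pool.Agent.LPK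

/-! ### linear functionals -/

noncomputable def s1 (L : ℕ → ℝ) : D1 → ℝ
  | [] => 0
  | a :: p => a * L 0 + s1 (fun k => L (k + 1)) p

noncomputable def s2 (L : ℕ → ℕ → ℝ) : D2 → ℝ
  | [] => 0
  | q :: p => s1 (L 0) q + s2 (fun j => L (j + 1)) p

noncomputable def s3 (L : ℕ → ℕ → ℕ → ℝ) : D3 → ℝ
  | [] => 0
  | q :: p => s2 (L 0) q + s3 (fun i => L (i + 1)) p

theorem s1_mul (c : ℝ) : ∀ (p : D1) (L : ℕ → ℝ), s1 (fun k => c * L k) p = c * s1 L p
  | [], L => by simp [s1]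
  | a :: p, L => by
    rw [s1, s1, s1_mul c p (fun k => L (k + 1))]
    ring

theorem s2_mul (c : ℝ) : ∀ (p : D2) (L : ℕ → ℕ → ℝ), s2 (fun j k => c * L j k) p = c * s2 L p
  | [], L => by simp [s2]
  | q :: p, L => by
    rw [s2, s2, s2_mul c p (fun j => L (j + 1)), s1_mul c q (L 0)]
    ring

theorem s3_mul (c : ℝ) : ∀ (p : D3) (L : ℕ → ℕ → ℕ → ℝ),
    s3 (fun i j k => c * L i j k) p = c * s3 L p
  | [], L => by simp [s3]
  | q :: p, L => by
    rw [s3, s3, s3_mul c p (fun i => L (i + 1)), s2_mul c q (L 0)]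
    ring

theorem s1_fadd : ∀ (p : D1) (L M : ℕ → ℝ), s1 (fun k => L k + M k) p = s1 L p + s1 M p
  | [], L, M => by simp [s1]
  | a :: p, L, M => by
    rw [s1, s1, s1, s1_fadd p (fun k => L (k + 1)) (fun k => M (k + 1))]
    ring

theorem s2_fadd : ∀ (p : D2) (L M : ℕ → ℕ → ℝ), s2 (fun j k => L j k + M j k) p = s2 L p + s2 M p
  | [], L, M => by simp [s2]
  | q :: p, L, M => by
    rw [s2, s2, s2, s2_fadd p (fun j => L (j + 1)) (fun j => M (j + 1)), s1_fadd q (L 0) (M 0)]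
    ring

theorem s3_fadd : ∀ (p : D3) (L M : ℕ → ℕ → ℕ → ℝ),
    s3 (fun i j k => L i j k + M i j k) p = s3 L p + s3 M p
  | [], L, M => by simp [s3]
  | q :: p, L, M => by
    rw [s3, s3, s3, s3_fadd p (fun i => L (i + 1)) (fun i => M (i + 1)), s2_fadd q (L 0) (M 0)]
    ring

theorem s1_add (L : ℕ → ℝ) : ∀ p q : D1, s1 L (add1 p q) = s1 L p + s1 L q := by
  intro p
  induction p generalizing L with
  | nil => intro q; simp [add1, addL, s1]
  | cons a p ih =>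
    intro q
    cases q with
    | nil => simp [add1, addL, s1]
    | cons b q =>
      show ((Int.add a b : ℤ) : ℝ) * L 0 + s1 (fun k => L (k + 1)) (add1 p q) = _
      rw [ih, castAdd, s1, s1]
      ring

theorem s2_add (L : ℕ → ℕ → ℝ) : ∀ p q : D2, s2 L (add2 p q) = s2 L p + s2 L q := by
  intro p
  induction p generalizing L with
  | nil => intro q; simp [add2, addL, s2]
  | cons a p ih =>
    intro q
    cases q with
    | nil => simp [add2, addL, s2]
    | cons b q =>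
      show s1 (L 0) (add1 a b) + s2 (fun k => L (k + 1)) (add2 p q) = _
      rw [ih, s1_add, s2, s2]
      ring

theorem s3_add (L : ℕ → ℕ → ℕ → ℝ) : ∀ p q : D3, s3 L (add3 p q) = s3 L p + s3 L q := by
  intro p
  induction p generalizing L with
  | nil => intro q; simp [add3, addL, s3]
  | cons a p ih =>
    intro q
    cases q with
    | nil => simp [add3, addL, s3]
    | cons b q =>
      show s2 (L 0) (add2 a b) + s3 (fun k => L (k + 1)) (add3 p q) = _
      rw [ih, s2_add, s3, s3]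
      ring

theorem s1_sc (c : ℤ) : ∀ (p : D1) (L : ℕ → ℝ), s1 L (sc1 c p) = c * s1 L p
  | [], L => by simp [sc1, s1]
  | a :: p, L => by
    show ((Int.mul c a : ℤ) : ℝ) * L 0 + s1 (fun k => L (k + 1)) (sc1 c p) = _
    rw [s1_sc c p, castMul, s1]
    ring

theorem s2_sc (c : ℤ) : ∀ (p : D2) (L : ℕ → ℕ → ℝ), s2 L (sc2 c p) = c * s2 L p
  | [], L => by simp [sc2, s2]
  | a :: p, L => by
    show s1 (L 0) (sc1 c a) + s2 (fun k => L (k + 1)) (sc2 c p) = _
    rw [s2_sc c p, s1_sc, s2]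
    ring

theorem s3_sc (c : ℤ) : ∀ (p : D3) (L : ℕ → ℕ → ℕ → ℝ), s3 L (sc3 c p) = c * s3 L p
  | [], L => by simp [sc3, s3]
  | a :: p, L => by
    show s2 (L 0) (sc2 c a) + s3 (fun k => L (k + 1)) (sc3 c p) = _
    rw [s3_sc c p, s2_sc, s3]
    ring

theorem s1_v1 (x : ℝ) : ∀ p : D1, s1 (fun k => x ^ k) p = v1 p x
  | [] => rfl
  | a :: p => by
    have h : (fun k : ℕ => x ^ (k + 1)) = fun k => x * x ^ k := by
      funext k
      ring
    rw [s1, v1_cons, h, s1_mul x p (fun k => x ^ k), s1_v1 x p]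
    ring

theorem s2_v2 (x y : ℝ) : ∀ p : D2, s2 (fun j k => x ^ j * y ^ k) p = v2 p x y
  | [] => rfl
  | a :: p => by
    have h : (fun (j k : ℕ) => x ^ (j + 1) * y ^ k) = fun j k => x * (x ^ j * y ^ k) := by
      funext j k
      ring
    have h0 : (fun k : ℕ => x ^ 0 * y ^ k) = fun k => y ^ k := by
      funext k
      simp
    show s1 (fun k => x ^ 0 * y ^ k) a + s2 (fun j k => x ^ (j + 1) * y ^ k) p = _
    rw [v2_cons, h, h0, s2_mul x p (fun j k => x ^ j * y ^ k), s2_v2 x y p, s1_v1]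

theorem s3_v3 (x y z : ℝ) : ∀ p : D3, s3 (fun i j k => x ^ i * (y ^ j * z ^ k)) p = v3 p x y z
  | [] => rfl
  | a :: p => by
    have h : (fun (i j k : ℕ) => x ^ (i + 1) * (y ^ j * z ^ k)) =
        fun i j k => x * (x ^ i * (y ^ j * z ^ k)) := by
      funext i j k
      ring
    have h0 : (fun (j k : ℕ) => x ^ 0 * (y ^ j * z ^ k)) = fun j k => y ^ j * z ^ k := by
      funext j k
      simp
    show s2 (fun j k => x ^ 0 * (y ^ j * z ^ k)) a +
      s3 (fun i j k => x ^ (i + 1) * (y ^ j * z ^ k)) p = _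
    rw [v3_cons, h, h0, s3_mul x p (fun i j k => x ^ i * (y ^ j * z ^ k)), s3_v3 x y z p, s2_v2]

/-! ### the operators -/

/-- `p_k ↦ (c + d k) p_k` -/
def lin (c d : ℤ) : D1 → D1
  | [] => []
  | a :: p => Int.mul c a :: lin (Int.add c d) d p

theorem s1_lin (d : ℤ) : ∀ (p : D1) (c : ℤ) (L : ℕ → ℝ),
    s1 L (lin c d p) = s1 (fun k => ((c : ℝ) + d * k) * L k) p
  | [], c, L => rfl
  | a :: p, c, L => by
    rw [lin, s1, s1, s1_lin d p, castMul, castAdd]
    have h : (fun k : ℕ => ((c : ℝ) + d + d * k) * L (k + 1)) =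
        fun k => ((c : ℝ) + d * ((k + 1 : ℕ) : ℝ)) * L (k + 1) := by
      funext k
      push_cast
      ring
    rw [h]
    simp
    ring

/-- `-2k(2k-1) p_k`, `k = m, m+1, ..` -/
def dd (m : ℤ) : D1 → D1
  | [] => []
  | a :: p => Int.mul (Int.mul (Int.mul (-2) m) (Int.sub (Int.mul 2 m) 1)) a :: dd (Int.add m 1) p

theorem s1_dd : ∀ (p : D1) (m : ℤ) (L : ℕ → ℝ),
    s1 L (dd m p) = s1 (fun k => (-2 * ((m : ℝ) + k) * (2 * (m + k) - 1)) * L k) p
  | [], m, L => rfl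
  | a :: p, m, L => by
    rw [dd, s1, s1, s1_dd p]
    have h : (fun k : ℕ => (-2 * (((Int.add m 1 : ℤ) : ℝ) + k) *
          (2 * (((Int.add m 1 : ℤ) : ℝ) + k) - 1)) * L (k + 1)) =
        fun k => (-2 * ((m : ℝ) + ((k + 1 : ℕ) : ℝ)) * (2 * (m + ((k + 1 : ℕ) : ℝ)) - 1)) *
          L (k + 1) := by
      funext k
      rw [castAdd]
      push_cast
      ring
    rw [h]
    congr 1
    have e : Int.mul (Int.mul (Int.mul (-2) m) (Int.sub (Int.mul 2 m) 1)) a =
        (-2 * m * (2 * m - 1)) * a := rfl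
    rw [e]
    push_cast
    ring

/-- the tail -/
def tl {α : Type} : List α → List α
  | [] => []
  | _ :: p => p

/-- `p_k ↦ -2k(2k-1) p_k` at the place `k - 1` -/
def ddC (p : D1) : D1 := dd 1 (tl p)

theorem s1_ddC (p : D1) (L : ℕ → ℝ) :
    s1 L (ddC p) = s1 (fun k => (-2 * (k : ℝ) * (2 * k - 1)) * L (k - 1)) p := by
  cases p with
  | nil => rfl
  | cons a p =>
    show s1 L (dd 1 p) = _
    rw [s1_dd, s1]
    have h : (fun k : ℕ => (-2 * (((1 : ℤ) : ℝ) + k) * (2 * (((1 : ℤ) : ℝ) + k) - 1)) * L k) =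
        fun k => (-2 * ((k + 1 : ℕ) : ℝ) * (2 * ((k + 1 : ℕ) : ℝ) - 1)) * L (k + 1 - 1) := by
      funext k
      rw [Nat.add_sub_cancel]
      push_cast
      ring
    rw [h]
    simp

/-- the functional composed with an operation on the rows -/
theorem s2_map (f : D1 → D1) (g : ℕ → (ℕ → ℝ) → ℕ → ℝ) : ∀ (p : D2) (L : ℕ → ℕ → ℝ) (j : ℕ),
    (∀ (j : ℕ) (c : D1) (M : ℕ → ℝ), s1 M (f c) = s1 (g j M) c) →
      s2 L (p.map f) = s2 (fun i => g (j + i) (L i)) p
  | [], L, j, h => rfl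
  | c :: p, L, j, h => by
    rw [List.map_cons, s2, s2, s2_map f g p (fun i => L (i + 1)) (j + 1) h, h (j + 0)]
    congr 2
    funext i
    have : j + 1 + i = j + (i + 1) := by omega
    rw [this]

theorem s2_map' (f : D1 → D1) (g : (ℕ → ℝ) → ℕ → ℝ) (h : ∀ (c : D1) (M : ℕ → ℝ),
    s1 M (f c) = s1 (g M) c) : ∀ (p : D2) (L : ℕ → ℕ → ℝ), s2 L (p.map f) = s2 (fun j => g (L j)) p
  | [], L => rfl
  | c :: p, L => by rw [List.map_cons, s2, s2, s2_map' f g h p, h]

theorem s3_map' (f : D2 → D2) (g : (ℕ → ℕ → ℝ) → ℕ → ℕ → ℝ) (h : ∀ (c : D2) (M : ℕ → ℕ → ℝ),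
    s2 M (f c) = s2 (g M) c) : ∀ (p : D3) (L : ℕ → ℕ → ℕ → ℝ),
      s3 L (p.map f) = s3 (fun j => g (L j)) p
  | [], L => rfl
  | c :: p, L => by rw [List.map_cons, s3, s3, s3_map' f g h p, h]

/-- `-opD²` on `B^j C^k` -/
def qst (p : D2) : D2 :=
  add2 (p.map fun c => 0 :: sc1 (-1) c) ([] :: add2 (p.map (lin 1 4)) ([] :: p.map ddC))

noncomputable def qsL (L : ℕ → ℕ → ℝ) (j k : ℕ) : ℝ :=
  -L j (k + 1) + (1 + 4 * k) * L (j + 1) k + (-2 * (k : ℝ) * (2 * k - 1)) * L (j + 2) (k - 1)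

theorem s2_qst (p : D2) (L : ℕ → ℕ → ℝ) : s2 L (qst p) = s2 (qsL L) p := by
  have h1 : s2 L (p.map fun c => 0 :: sc1 (-1) c) = s2 (fun j k => -L j (k + 1)) p := by
    rw [s2_map' _ (fun M k => -M (k + 1)) (by
      intro c M
      show ((0 : ℤ) : ℝ) * M 0 + s1 (fun k => M (k + 1)) (sc1 (-1) c) = _
      rw [s1_sc]
      have : (fun k : ℕ => -M (k + 1)) = fun k => (-1 : ℝ) * M (k + 1) := by
        funext k
        ring
      rw [this, s1_mul (-1) c (fun k => M (k + 1))]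
      push_cast
      ring)]
  have h2 : ∀ M : ℕ → ℕ → ℝ, s2 M (p.map (lin 1 4)) = s2 (fun j k => (1 + 4 * (k : ℝ)) * M j k) p := by
    intro M
    rw [s2_map' _ (fun N k => (1 + 4 * (k : ℝ)) * N k) (by
      intro c N
      rw [s1_lin]
      simp)]
  have h3 : ∀ M : ℕ → ℕ → ℝ, s2 M (p.map ddC) =
      s2 (fun j k => (-2 * (k : ℝ) * (2 * k - 1)) * M j (k - 1)) p := by
    intro M
    rw [s2_map' _ (fun N k => (-2 * (k : ℝ) * (2 * k - 1)) * N (k - 1)) (fun c N => s1_ddC c N)]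
  rw [qst, s2_add, h1, s2, s1, s2_add, h2, s2, s1, h3, zero_add, zero_add, ← s2_fadd, ← s2_fadd]
  congr 1
  funext j k
  unfold qsL
  ring

/-- the diagonal part `(n + 4i + 4k) p_ijk`, `i = m, m+1, ..` (`c = n + 4 m`) -/
def dgA (c : ℤ) : D3 → D3
  | [] => []
  | q :: p => q.map (lin c 4) :: dgA (Int.add c 4) p

/-- the part `-2i(n + 2i - 2 + 4k) p_ijk`, `i = m, m+1, ..` -/
def gA (n m : ℤ) : D3 → D3
  | [] => []
  | q :: p => q.map (lin (Int.mul (Int.mul (-2) m) (Int.add n (Int.sub (Int.mul 2 m) 2)))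
      (Int.mul (-8) m)) :: gA n (Int.add m 1) p

/-- the operator `opA` -/
def opA3 (n : ℤ) (p : D3) : D3 :=
  add3 (dgA n p) (add3 ([] :: sc3 (-1) p) (add3 (gA n 1 (tl p)) (p.map fun q => [] :: q.map ddC)))

noncomputable def opL (n : ℤ) (L : ℕ → ℕ → ℕ → ℝ) (i j k : ℕ) : ℝ :=
  (n + 4 * i + 4 * k) * L i j k + -L (i + 1) j k +
    (-2 * (i : ℝ) * (n + 2 * i - 2 + 4 * k)) * L (i - 1) j k +
      (-2 * (k : ℝ) * (2 * k - 1)) * L i (j + 1) (k - 1)

theorem s3_dgA : ∀ (p : D3) (c : ℤ) (L : ℕ → ℕ → ℕ → ℝ),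
    s3 L (dgA c p) = s3 (fun i j k => (c + 4 * (i : ℝ) + 4 * k) * L i j k) p
  | [], c, L => rfl
  | q :: p, c, L => by
    rw [dgA, s3, s3, s3_dgA p, s2_map' _ (fun N k => ((c : ℝ) + 4 * (k : ℝ)) * N k) (by
      intro d N
      rw [s1_lin]
      push_cast
      rfl)]
    have h : (fun (i j k : ℕ) => (((Int.add c 4 : ℤ) : ℝ) + 4 * (i : ℝ) + 4 * k) * L (i + 1) j k) =
        fun i j k => ((c : ℝ) + 4 * ((i + 1 : ℕ) : ℝ) + 4 * k) * L (i + 1) j k := by
      funext i j k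
      rw [castAdd]
      push_cast
      ring
    rw [h]
    congr 2
    funext j k
    push_cast
    ring

theorem s3_gA (n : ℤ) : ∀ (p : D3) (m : ℤ) (L : ℕ → ℕ → ℕ → ℝ),
    s3 L (gA n m p) = s3 (fun i j k => (-2 * ((m : ℝ) + i) * (n + 2 * (m + i) - 2 + 4 * k)) *
      L i j k) p
  | [], m, L => rfl
  | q :: p, m, L => by
    rw [gA, s3, s3, s3_gA n p, s2_map' _ (fun N k => (-2 * (m : ℝ) * (n + 2 * m - 2 + 4 * k)) * N k)
      (by
        intro d N
        rw [s1_lin]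
        congr 1
        funext k
        have e1 : Int.mul (Int.mul (-2) m) (Int.add n (Int.sub (Int.mul 2 m) 2)) =
          (-2 * m) * (n + (2 * m - 2)) := rfl
        have e2 : Int.mul (-8) m = -8 * m := rfl
        rw [e1, e2]
        push_cast
        ring)]
    have h : (fun (i j k : ℕ) => (-2 * (((Int.add m 1 : ℤ) : ℝ) + i) *
          (n + 2 * (((Int.add m 1 : ℤ) : ℝ) + i) - 2 + 4 * k)) * L (i + 1) j k) =
        fun i j k => (-2 * ((m : ℝ) + ((i + 1 : ℕ) : ℝ)) *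
          (n + 2 * (m + ((i + 1 : ℕ) : ℝ)) - 2 + 4 * k)) * L (i + 1) j k := by
      funext i j k
      rw [castAdd]
      push_cast
      ring
    rw [h]
    congr 2
    funext j k
    push_cast
    ring

theorem s3_opA3 (n : ℤ) (p : D3) (L : ℕ → ℕ → ℕ → ℝ) : s3 L (opA3 n p) = s3 (opL n L) p := by
  have h1 : s3 L ([] :: sc3 (-1) p) = s3 (fun i j k => -L (i + 1) j k) p := by
    rw [s3, s2, s3_sc]
    have : (fun (i j k : ℕ) => -L (i + 1) j k) = fun i j k => (-1 : ℝ) * L (i + 1) j k := by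
      funext i j k
      ring
    rw [this, s3_mul (-1) p (fun i j k => L (i + 1) j k)]
    push_cast
    ring
  have h2 : s3 L (gA n 1 (tl p)) =
      s3 (fun i j k => (-2 * (i : ℝ) * (n + 2 * i - 2 + 4 * k)) * L (i - 1) j k) p := by
    cases p with
    | nil => rfl
    | cons q p =>
      show s3 L (gA n 1 p) = _
      rw [s3_gA, s3]
      have h0 : s2 (fun j k => (-2 * ((0 : ℕ) : ℝ) * (n + 2 * ((0 : ℕ) : ℝ) - 2 + 4 * (k : ℝ))) *
          L (0 - 1) j k) q = 0 := by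
        have : (fun (j k : ℕ) => (-2 * ((0 : ℕ) : ℝ) * (n + 2 * ((0 : ℕ) : ℝ) - 2 + 4 * (k : ℝ))) *
            L (0 - 1) j k) = fun j k => (0 : ℝ) * L 0 j k := by
          funext j k
          simp
        rw [this, s2_mul 0 q (L 0), zero_mul]
      rw [h0, zero_add]
      congr 1
      funext i j k
      rw [Nat.add_sub_cancel]
      push_cast
      ring
  have h3 : s3 L (p.map fun q => [] :: q.map ddC) =
      s3 (fun i j k => (-2 * (k : ℝ) * (2 * k - 1)) * L i (j + 1) (k - 1)) p := by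
    rw [s3_map' _ (fun M j k => (-2 * (k : ℝ) * (2 * k - 1)) * M (j + 1) (k - 1)) (by
      intro c M
      rw [s2, s1, zero_add, s2_map' _ (fun N k => (-2 * (k : ℝ) * (2 * k - 1)) * N (k - 1))
        (fun c N => s1_ddC c N)])]
  rw [opA3, s3_add, s3_add, s3_add, s3_dgA, h1, h2, h3, ← s3_fadd, ← s3_fadd, ← s3_fadd]
  congr 1
  funext i j k
  unfold opL
  ring

/-! ### the transform -/

/-- `∑ c_k (-opD²)^k 1` -/
def cmb : D1 → D2
  | [] => []
  | a :: c => add2 [[a]] (qst (cmb c))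

/-- `∑ B^j (∑ c_jk (-opD²)^k 1)` -/
def rB : D2 → D2
  | [] => []
  | c :: p => add2 (cmb c) ([] :: rB p)

/-- the transform of a dense polynomial -/
def t3 (n : ℤ) : D3 → D3
  | [] => []
  | q :: p => add3 [rB q] (opA3 n (t3 n p))

/-- the terms of a dense polynomial -/
def o1 (i j k : ℕ) : D1 → P3
  | [] => []
  | a :: p => (a, i, j, 2 * k) :: o1 i j (k + 1) p

def o2 (i j : ℕ) : D2 → P3
  | [] => []
  | q :: p => o1 i j 0 q ++ o2 i (j + 1) p

def o3 (i : ℕ) : D3 → P3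
  | [] => []
  | q :: p => o2 i 0 q ++ o3 (i + 1) p

/-- the sparse form of a dense polynomial -/
def ofD (p : D3) : P3 := o3 0 p

/-- functional on sparse polynomials -/
noncomputable def S (F : ℕ → ℕ → ℕ → ℝ) (q : P3) : ℝ :=
  (q.map fun t => (t.1 : ℝ) * F t.2.1 t.2.2.1 t.2.2.2).sum

theorem S_nil (F : ℕ → ℕ → ℕ → ℝ) : S F [] = 0 := rfl

theorem S_cons (F : ℕ → ℕ → ℕ → ℝ) (t : ℤ × ℕ × ℕ × ℕ) (q : P3) :
    S F (t :: q) = (t.1 : ℝ) * F t.2.1 t.2.2.1 t.2.2.2 + S F q := by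
  simp [S]

theorem S_app (F : ℕ → ℕ → ℕ → ℝ) (q r : P3) : S F (q ++ r) = S F q + S F r := by
  simp [S]

theorem S_map (F G : ℕ → ℕ → ℕ → ℝ) (f : ℤ × ℕ × ℕ × ℕ → ℤ × ℕ × ℕ × ℕ)
    (h : ∀ t, ((f t).1 : ℝ) * F (f t).2.1 (f t).2.2.1 (f t).2.2.2 =
      (t.1 : ℝ) * G t.2.1 t.2.2.1 t.2.2.2) : ∀ q : P3, S F (q.map f) = S G q
  | [] => rfl
  | t :: q => by rw [List.map_cons, S_cons, S_cons, S_map F G f h q, h]

theorem S_sc (F : ℕ → ℕ → ℕ → ℝ) (c : ℤ) (q : P3) : S F (sc c q) = c * S F q := by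
  induction q with
  | nil => simp [sc, S]
  | cons t q ih =>
    have : sc c (t :: q) = (c * t.1, t.2.1, t.2.2.1, t.2.2.2) :: sc c q := rfl
    rw [this, S_cons, S_cons, ih]
    push_cast
    ring

theorem S_fadd (F G : ℕ → ℕ → ℕ → ℝ) (q : P3) :
    S (fun i j h => F i j h + G i j h) q = S F q + S G q := by
  induction q with
  | nil => simp [S]
  | cons t q ih => rw [S_cons, S_cons, S_cons, ih]; ring

theorem S_fmul (c : ℝ) (G : ℕ → ℕ → ℕ → ℝ) (q : P3) :
    S (fun i j h => c * G i j h) q = c * S G q := by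
  induction q with
  | nil => simp [S]
  | cons t q ih => rw [S_cons, S_cons, ih]; ring

theorem S_o1 (F : ℕ → ℕ → ℕ → ℝ) (i j : ℕ) : ∀ (p : D1) (k : ℕ),
    S F (o1 i j k p) = s1 (fun m => F i j (2 * (k + m))) p
  | [], k => rfl
  | a :: p, k => by
    rw [o1, S_cons, s1, S_o1 F i j p (k + 1)]
    have : (fun m : ℕ => F i j (2 * (k + 1 + m))) = fun m => F i j (2 * (k + (m + 1))) := by
      funext m
      congr 2
      omega
    rw [this]
    simp

theorem S_o2 (F : ℕ → ℕ → ℕ → ℝ) (i : ℕ) : ∀ (p : D2) (j : ℕ),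
    S F (o2 i j p) = s2 (fun b k => F i (j + b) (2 * k)) p
  | [], j => rfl
  | q :: p, j => by
    rw [o2, S_app, s2, S_o2 F i p (j + 1), S_o1]
    have : (fun b k : ℕ => F i (j + 1 + b) (2 * k)) = fun b k => F i (j + (b + 1)) (2 * k) := by
      funext b k
      congr 1
      omega
    rw [this]
    simp

theorem S_o3 (F : ℕ → ℕ → ℕ → ℝ) : ∀ (p : D3) (i : ℕ),
    S F (o3 i p) = s3 (fun a b k => F (i + a) b (2 * k)) p
  | [], i => rfl
  | q :: p, i => by
    rw [o3, S_app, s3, S_o3 F p (i + 1), S_o2]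
    have : (fun a b k : ℕ => F (i + 1 + a) b (2 * k)) = fun a b k => F (i + (a + 1)) b (2 * k) := by
      funext a b k
      congr 1
      omega
    rw [this]
    simp

theorem S_ofD (F : ℕ → ℕ → ℕ → ℝ) (p : D3) : S F (ofD p) = s3 (fun a b k => F a b (2 * k)) p := by
  rw [ofD, S_o3]
  simp

theorem e3_eq (q : P3) (A B H : ℝ) : e3 q A B H = S (fun i j h => A ^ i * B ^ j * H ^ h) q := by
  unfold e3 S
  congr 1
  apply List.map_congr_left
  intro t _
  ring

/-- values of a dense polynomial -/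
theorem e3_ofD (p : D3) (A B H : ℝ) : e3 (ofD p) A B H = v3 p A B (H ^ 2) := by
  rw [e3_eq, S_ofD, ← s3_v3]
  congr 1
  funext i j k
  rw [pow_mul]
  ring

/-! ### adjoints on the sparse side -/

/-- adjoint of `opA` -/
noncomputable def adA (n : ℕ) (F : ℕ → ℕ → ℕ → ℝ) (i j h : ℕ) : ℝ :=
  n * F i j h + -F (i + 1) j h + 4 * i * F i j h + 2 * h * F i j h + (-2 * n) * (i * F (i - 1) j h) +
    (-4) * (i * ((i : ℝ) - 1) * F (i - 1) j h) + (-4) * (i * h * F (i - 1) j h) +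
      -(h * ((h : ℝ) - 1) * F i (j + 1) (h - 2))

/-- adjoint of `opD` -/
noncomputable def adD (F : ℕ → ℕ → ℕ → ℝ) (i j h : ℕ) : ℝ :=
  2 * (i * F (i - 1) j (h + 1)) + h * F i (j + 1) (h - 1) + -F i j (h + 1)

theorem S_opA (n : ℕ) (F : ℕ → ℕ → ℕ → ℝ) (q : P3) : S F (opA n q) = S (adA n F) q := by
  have h1 : S F (mA q) = S (fun i j h => F (i + 1) j h) q := by
    unfold mA
    refine S_map _ _ _ (fun t => ?_) q
    rfl
  have h2 : S F (mA (dA q)) = S (fun i j h => i * F i j h) q := by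
    unfold mA dA
    rw [List.map_map]
    refine S_map _ _ _ (fun t => ?_) q
    obtain ⟨c, i, j, h⟩ := t
    rcases i with _ | i
    · simp
    · simp
      ring
  have h3 : S F (mH (dH q)) = S (fun i j h => h * F i j h) q := by
    unfold mH dH
    rw [List.map_map]
    refine S_map _ _ _ (fun t => ?_) q
    obtain ⟨c, i, j, h⟩ := t
    rcases h with _ | h
    · simp
    · simp
      ring
  have h4 : S F (dA q) = S (fun i j h => i * F (i - 1) j h) q := by
    unfold dA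
    refine S_map _ _ _ (fun t => ?_) q
    obtain ⟨c, i, j, h⟩ := t
    simp
    ring
  have h5 : S F (mA (dA (dA q))) = S (fun i j h => i * ((i : ℝ) - 1) * F (i - 1) j h) q := by
    unfold mA dA
    rw [List.map_map, List.map_map]
    refine S_map _ _ _ (fun t => ?_) q
    obtain ⟨c, i, j, h⟩ := t
    rcases i with _ | i
    · simp
    rcases i with _ | i
    · simp
    · simp
      ring
  have h6 : S F (mH (dA (dH q))) = S (fun i j h => i * h * F (i - 1) j h) q := by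
    unfold mH dA dH
    rw [List.map_map, List.map_map]
    refine S_map _ _ _ (fun t => ?_) q
    obtain ⟨c, i, j, h⟩ := t
    rcases h with _ | h
    · simp
    · simp
      ring
  have h7 : S F (mB (dH (dH q))) = S (fun i j h => h * ((h : ℝ) - 1) * F i (j + 1) (h - 2)) q := by
    unfold mB dH
    rw [List.map_map, List.map_map]
    refine S_map _ _ _ (fun t => ?_) q
    obtain ⟨c, i, j, h⟩ := t
    rcases h with _ | h
    · simp
    rcases h with _ | h
    · simp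
    · simp
      ring
  unfold opA
  rw [S_app, S_app, S_app, S_app, S_app, S_app, S_app, S_sc, S_sc, S_sc, S_sc, S_sc, S_sc, S_sc,
    S_sc, h1, h2, h3, h4, h5, h6, h7]
  have e : adA n F = fun i j h => (n : ℝ) * F i j h + ((-1 : ℝ) * F (i + 1) j h +
      ((4 : ℝ) * (i * F i j h) + ((2 : ℝ) * (h * F i j h) + ((-2 * n : ℝ) * (i * F (i - 1) j h) +
        ((-4 : ℝ) * (i * ((i : ℝ) - 1) * F (i - 1) j h) + ((-4 : ℝ) * (i * h * F (i - 1) j h) +
          (-1 : ℝ) * (h * ((h : ℝ) - 1) * F i (j + 1) (h - 2)))))))) := by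
    funext i j h
    unfold adA
    ring
  rw [e, S_fadd, S_fadd, S_fadd, S_fadd, S_fadd, S_fadd, S_fadd, S_fmul, S_fmul, S_fmul, S_fmul,
    S_fmul, S_fmul, S_fmul, S_fmul]
  push_cast
  ring

theorem S_opD (F : ℕ → ℕ → ℕ → ℝ) (q : P3) : S F (opD q) = S (adD F) q := by
  have h1 : S F (mH (dA q)) = S (fun i j h => i * F (i - 1) j (h + 1)) q := by
    unfold mH dA
    rw [List.map_map]
    refine S_map _ _ _ (fun t => ?_) q
    obtain ⟨c, i, j, h⟩ := t
    simp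
    ring
  have h2 : S F (mB (dH q)) = S (fun i j h => h * F i (j + 1) (h - 1)) q := by
    unfold mB dH
    rw [List.map_map]
    refine S_map _ _ _ (fun t => ?_) q
    obtain ⟨c, i, j, h⟩ := t
    simp
    ring
  have h3 : S F (mH q) = S (fun i j h => F i j (h + 1)) q := by
    unfold mH
    refine S_map _ _ _ (fun t => ?_) q
    rfl
  unfold opD
  rw [S_app, S_app, S_sc, S_sc, h1, h2, h3]
  have e : adD F = fun i j h => (2 : ℝ) * (i * F (i - 1) j (h + 1)) +
      (h * F i (j + 1) (h - 1) + (-1 : ℝ) * F i j (h + 1)) := by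
    funext i j h
    unfold adD
    ring
  rw [e, S_fadd, S_fadd, S_fmul, S_fmul]
  push_cast
  ring

/-- adjoint of `-opD²` -/
noncomputable def adG (F : ℕ → ℕ → ℕ → ℝ) (i j h : ℕ) : ℝ := -adD (adD F) i j h

theorem S_opG (F : ℕ → ℕ → ℕ → ℝ) (q : P3) : S F (sc (-1) (opD (opD q))) = S (adG F) q := by
  rw [S_sc, S_opD, S_opD]
  have e : adG F = fun i j h => (-1 : ℝ) * adD (adD F) i j h := by
    funext i j h
    unfold adG
    ring
  rw [e, S_fmul]
  push_cast
  ring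

theorem S_itA (n i : ℕ) : ∀ (F : ℕ → ℕ → ℕ → ℝ) (q : P3),
    S F ((opA n)^[i] q) = S ((adA n)^[i] F) q := by
  induction i with
  | zero => intro F q; rfl
  | succ i ih =>
    intro F q
    rw [Function.iterate_succ_apply', S_opA, ih, Function.iterate_succ_apply]

theorem S_itG (k : ℕ) : ∀ (F : ℕ → ℕ → ℕ → ℝ) (q : P3),
    S F ((fun q => sc (-1) (opD (opD q)))^[k] q) = S (adG^[k] F) q := by
  induction k with
  | zero => intro F q; rfl
  | succ k ih =>
    intro F q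
    rw [Function.iterate_succ_apply', S_opG, ih, Function.iterate_succ_apply]

/-- shift of `j` -/
def shj (m : ℕ) (F : ℕ → ℕ → ℕ → ℝ) (i j h : ℕ) : ℝ := F i (j + m) h

theorem S_mB (F : ℕ → ℕ → ℕ → ℝ) (q : P3) : S F (mB q) = S (shj 1 F) q := by
  unfold mB
  refine S_map _ _ _ (fun t => ?_) q
  rfl

theorem S_itB (m : ℕ) : ∀ (F : ℕ → ℕ → ℕ → ℝ) (q : P3), S F (mB^[m] q) = S (shj m F) q := by
  induction m with
  | zero => intro F q; rfl
  | succ m ih =>
    intro F q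
    rw [Function.iterate_succ_apply', S_mB, ih]
    rfl

theorem S_tm (n i j k : ℕ) (F : ℕ → ℕ → ℕ → ℝ) :
    S F (tm n i j k) = (adG^[k] ((adA n)^[i] (shj j F))) 0 0 0 := by
  unfold tm
  rw [S_itB, S_itA, S_itG, S_cons, S_nil]
  simp

theorem S_T3 (n : ℕ) (F : ℕ → ℕ → ℕ → ℝ) (q : P3) :
    S F (T3 n q) = S (fun i j h => S F (tm n i j (h / 2))) q := by
  induction q with
  | nil => rfl
  | cons t q ih =>
    have : T3 n (t :: q) = sc t.1 (tm n t.2.1 t.2.2.1 (t.2.2.2 / 2)) ++ T3 n q := rfl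
    rw [this, S_app, S_sc, ih, S_cons]

theorem shj_adA (n m : ℕ) (F : ℕ → ℕ → ℕ → ℝ) : adA n (shj m F) = shj m (adA n F) := by
  funext i j h
  unfold adA shj
  have : j + 1 + m = j + m + 1 := by omega
  rw [this]

theorem shj_shj (a b : ℕ) (F : ℕ → ℕ → ℕ → ℝ) : shj a (shj b F) = shj (a + b) F := by
  funext i j h
  unfold shj
  rw [Nat.add_assoc]

/-- even powers of `H` -/
def ev2 (F : ℕ → ℕ → ℕ → ℝ) (i j k : ℕ) : ℝ := F i j (2 * k)

theorem ev2_adA (n : ℕ) (F : ℕ → ℕ → ℕ → ℝ) : ev2 (adA n F) = opL n (ev2 F) := by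
  funext i j k
  unfold ev2 adA opL
  rcases k with _ | k
  · simp
    ring
  · have h1 : 2 * (k + 1) - 2 = 2 * (k + 1 - 1) := by omega
    rw [h1]
    push_cast
    ring

theorem ev2_adG (F : ℕ → ℕ → ℕ → ℝ) : ev2 (adG F) 0 = qsL (ev2 F 0) := by
  funext j k
  unfold ev2 adG qsL adD
  rcases k with _ | k
  · simp
    ring
  · have h1 : 2 * (k + 1) - 1 = 2 * k + 1 := by omega
    have h2 : 2 * k + 1 - 1 = 2 * (k + 1 - 1) := by omega
    have h3 : 2 * k + 1 + 1 = 2 * (k + 1) := by omega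
    have h4 : 2 * (k + 1) + 1 - 1 = 2 * (k + 1) := by omega
    have h5 : 2 * (k + 1) + 1 + 1 = 2 * (k + 1 + 1) := by omega
    simp only [h1, h2, h3, h4, h5]
    push_cast
    simp only [Nat.add_assoc]
    ring

theorem s2_cmb : ∀ (c : D1) (F : ℕ → ℕ → ℕ → ℝ),
    s2 (ev2 F 0) (cmb c) = s1 (fun k => (adG^[k] F) 0 0 0) c
  | [], F => rfl
  | a :: c, F => by
    rw [cmb, s2_add, s2_qst, ← ev2_adG, s2_cmb c (adG F), s1]
    have : s2 (ev2 F 0) [[a]] = a * F 0 0 0 := by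
      simp [s2, s1, ev2]
    rw [this]
    rfl

theorem s2_rB : ∀ (p : D2) (F : ℕ → ℕ → ℕ → ℝ),
    s2 (ev2 F 0) (rB p) = s2 (fun j k => (adG^[k] (shj j F)) 0 0 0) p
  | [], F => rfl
  | c :: p, F => by
    rw [rB, s2_add, s2_cmb, s2, s1, zero_add]
    have h := s2_rB p (shj 1 F)
    have h1 : ev2 (shj 1 F) 0 = fun j => ev2 F 0 (j + 1) := rfl
    rw [h1] at h
    rw [h, s2]
    have h2 : (fun (j k : ℕ) => (adG^[k] (shj j (shj 1 F))) 0 0 0) =
        fun j k => (adG^[k] (shj (j + 1) F)) 0 0 0 := by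
      funext j k
      rw [shj_shj]
    rw [h2]
    rfl

theorem s3_t3 (n : ℕ) : ∀ (p : D3) (F : ℕ → ℕ → ℕ → ℝ),
    s3 (ev2 F) (t3 n p) = s3 (fun i j k => (adG^[k] ((adA n)^[i] (shj j F))) 0 0 0) p
  | [], F => rfl
  | q :: p, F => by
    rw [t3, s3_add, s3_opA3]
    have h1 : s3 (ev2 F) [rB q] = s2 (ev2 F 0) (rB q) := by
      simp [s3]
    have h2 : opL (n : ℤ) (ev2 F) = ev2 (adA n F) := (ev2_adA n F).symm
    rw [h1, h2, s2_rB, s3_t3 n p (adA n F), s3]
    have h3 : (fun (i j k : ℕ) => (adG^[k] ((adA n)^[i] (shj j (adA n F)))) 0 0 0) =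
        fun i j k => (adG^[k] ((adA n)^[i + 1] (shj j F))) 0 0 0 := by
      funext i j k
      rw [← shj_adA, ← Function.iterate_succ_apply]
    rw [h3]
    rfl

/-- **the transform of a dense polynomial** -/
theorem e3_T3 (n : ℕ) (p : D3) (A B H : ℝ) :
    e3 (T3 n (ofD p)) A B H = v3 (t3 n p) A B (H ^ 2) := by
  rw [e3_eq, S_T3, S_ofD, ← s3_v3]
  have h1 : (fun i j k : ℕ => A ^ i * (B ^ j * (H ^ 2) ^ k)) =
      ev2 (fun i j h => A ^ i * B ^ j * H ^ h) := by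
    funext i j k
    show A ^ i * (B ^ j * (H ^ 2) ^ k) = A ^ i * B ^ j * H ^ (2 * k)
    rw [pow_mul]
    ring
  rw [h1, s3_t3]
  congr 1
  funext i j k
  have : 2 * k / 2 = k := by omega
  rw [this, S_tm]

theorem ev_o1 (i j : ℕ) : ∀ (p : D1) (k : ℕ), Ev (o1 i j k p)
  | [], k => by simp [Ev, o1]
  | a :: p, k => by
    intro t ht _
    rcases List.mem_cons.1 ht with h | h
    · rw [h]
      show 2 * k % 2 = 0
      omega
    · exact ev_o1 i j p (k + 1) t h ‹_›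

theorem ev_o2 (i : ℕ) : ∀ (p : D2) (j : ℕ), Ev (o2 i j p)
  | [], j => by simp [Ev, o2]
  | q :: p, j => by
    intro t ht h0
    rcases List.mem_append.1 ht with h | h
    · exact ev_o1 i j q 0 t h h0
    · exact ev_o2 i p (j + 1) t h h0

theorem ev_o3 : ∀ (p : D3) (i : ℕ), Ev (o3 i p)
  | [], i => by simp [Ev, o3]
  | q :: p, i => by
    intro t ht h0
    rcases List.mem_append.1 ht with h | h
    · exact ev_o2 i q 0 t h h0
    · exact ev_o3 p (i + 1) t h h0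

/-- only even powers of `H` -/
theorem ev_ofD (p : D3) : Ev (ofD p) := ev_o3 p 0

end Pool.Agent.SOS
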